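import Pool.Agent.MWLE.StmtsB

/-!
# Class c, the doubling of `x` (row GDC of squad MWLE)

Problem MP_23468a_al.
-/

set_option autoImplicit false

namespace Pool.Agent.MWLE.H76

open Pool.Agent.Helper14_MV Pool.Agent.Helper2_MV
open Pool.Agent.MWK (pre Gw)
open Pool.Agent.MWGN (nn Gz E0 P0 A0 Tau gh)
open Pool.Agent.MWLE

theorem zero_mem (m : ℕ) (d g : Bool) : 0 ∈ wb m d g := by
  unfold wb
  apply List.mem_append_right
  apply List.mem_append_left
  cases d <;> simp

theorem pre_le {A B : List ℕ} {y : ℕ} (hy : y ∉ A) (x : ℕ) :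
    A.count x ≤ nn (A ++ B) x y := by
  unfold nn
  rw [MWK.pre_append hy, List.count_append]
  omega

theorem gdc (h1 : BlkStmt) (h2 : CvbStmt) (h3 : TcrStmt) : GdcStmt := by
  intro σ τ m hS d g f p q hF c hc
  by_contra hcon
  push Not at hcon
  obtain ⟨hc4, hc0, hcP⟩ := hcon
  set W := p ++ ((wd σ m d g).flatMap f ++ q) with hW
  have hb := h1 σ τ m hS d g f p q W hW hF.fc
  have hcp : c ∉ p := fun h => hcP (List.mem_append_left _ h)
  have hz := zero_mem m d g
  have hcW : c ∈ W := by
    rw [hW]
    apply List.mem_append_right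
    apply List.mem_append_left
    rw [List.mem_flatMap]
    exact ⟨0, by unfold wd; exact List.mem_append_left _ hz, hc⟩
  have hc1 : c = 1 := by
    rcases hF.fc.al c hcW with h | h | h | ⟨k, hk, h | h⟩
    · exact absurd h hc0
    · exact h
    · exact absurd h hc4
    · exfalso
      have ht := hF.fc.pt k hk
      rw [← h] at ht
      have h4 := (hb.2 c hcp (by omega) k hk).2 0 hz (by intro j; unfold pin; omega)
      rw [← h] at h4
      exact h4 hc
    · exfalso
      have h4 := hb.1 0 hz k hk
      rw [← h] at h4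
      exact h4 hc
  subst hc1
  have hb2 := hb.2 1 hcp (by have := hF.yt; have := hF.y2; omega)
  -- the decomposition of the word
  have hW2 : W = (p ++ (N0 m).flatMap f) ++ ((if d then [0, 0] else [0]).flatMap f ++
      ((Nx m g).flatMap f ++ (f 0 ++ ((tl σ).flatMap f ++ q)))) := by
    rw [hW]
    unfold wd wb
    simp only [List.flatMap_append, List.flatMap_cons, List.flatMap_nil, List.append_nil,
      List.append_assoc]
  have hP0 : pin 0 ∉ p ++ (N0 m).flatMap f := by
    intro h
    have h4 := hF.y0
    unfold nn at h4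
    rw [hW2, MWK.pre_append_mem h] at h4
    have h5 : 1 ∈ pre (p ++ (N0 m).flatMap f) (pin 0) := List.count_pos_iff.1 h4
    exact hcP (MWK.mem_of_mem_pre h5)
  have hPk : ∀ k ≤ 2 * m + 2, pin k ∉ p ++ (N0 m).flatMap f := by
    intro k hk h
    rcases Nat.eq_zero_or_pos k with rfl | h0
    · exact hP0 h
    have h4 := hF.fc.po 0 k h0 hk
    rw [hW2, MWK.pre_append_mem h] at h4
    exact hP0 (MWK.mem_of_mem_pre h4)
  have hf0 : ∀ k ≤ 2 * m + 2, pin k ∉ f 0 := fun k hk =>
    (hb2 k hk).2 0 hz (by intro j; unfold pin; omega)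
  have h1c : 1 ≤ (f 0).count 1 := List.count_pos_iff.2 hc
  cases d with
  | true =>
    have hW3 : W = ((p ++ (N0 m).flatMap f) ++ (f 0 ++ f 0)) ++
      ((Nx m g).flatMap f ++ (f 0 ++ ((tl σ).flatMap f ++ q))) := by
      rw [hW2]
      simp only [if_true, List.flatMap_cons, List.flatMap_nil, List.append_nil,
        List.append_assoc]
    have h4 : pin (m + 1) ∉ (p ++ (N0 m).flatMap f) ++ (f 0 ++ f 0) := by
      have h5 := hf0 (m + 1) (by omega)
      intro h
      rcases List.mem_append.1 h with h | h
      · exact hPk (m + 1) (by omega) h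
      rcases List.mem_append.1 h with h | h
      · exact h5 h
      · exact h5 h
    have h5 := pre_le h4 (B := (Nx m g).flatMap f ++ (f 0 ++ ((tl σ).flatMap f ++ q))) 1
    rw [← hW3] at h5
    simp only [List.count_append] at h5
    have h6 := hF.y1
    omega
  | false =>
    have hW3 : W = (((p ++ (N0 m).flatMap f) ++ (f 0 ++ ((Nx m g).flatMap f ++ f 0)))) ++
      ((tl σ).flatMap f ++ q) := by
      rw [hW2]
      simp
    have hin : ∀ i < m + 2, pin (0 + i) ∈ (Nx m g).flatMap f := by
      intro i hi
      by_contra hn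
      rw [Nat.zero_add] at hn
      have h5 := hf0 i (by omega)
      have h4 : pin i ∉ (p ++ (N0 m).flatMap f) ++ (f 0 ++ ((Nx m g).flatMap f ++ f 0)) := by
        intro h
        rcases List.mem_append.1 h with h | h
        · exact hPk i (by omega) h
        rcases List.mem_append.1 h with h | h
        · exact h5 h
        rcases List.mem_append.1 h with h | h
        · exact hn h
        · exact h5 h
      have h6 := pre_le h4 (B := (tl σ).flatMap f ++ q) 1
      rw [← hW3] at h6
      simp only [List.count_append] at h6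
      have h7 : nn W 1 (pin i) ≤ nn W 1 (pin (m + 1)) := by
        rcases Nat.lt_or_ge i (m + 1) with h8 | h8
        · exact MWK.count_pre_mono (hF.fc.po i (m + 1) h8 (by omega)) 1
        · have h9 : i = m + 1 := by omega
          rw [h9]
      have h8 := hF.y1
      omega
    have h4 := h2 σ τ m hS false g f p q W hW hF.fc (fun k hk => (hb2 k hk).1)
      (fun a ha hp k hk => (hb2 k hk).2 a ha hp) 0 (by omega)
      (fun i hi => hPk (0 + i) (by omega)) hin
    have h5 := h4 0 (by omega)
    have h6 := h4 1 (by omega)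
    simp only [Nat.zero_add, Nat.add_zero] at h5 h6
    exact h3 σ τ m hS false g f p q W hW hF.fc (m + 1) (m + 1 + 1) 1 0 (by omega) (by omega)
      (by omega) (by omega) (Or.inr hS.o2) hS.o1 h5 h6

end Pool.Agent.MWLE.H76
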