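import Pool.Agent.MWLE.StmtsB
import Pool.Agent.MWGN.StmtsD

/-!
# Light ends: `I1` and `I2` (row LEF of squad MWLE)

Problem MP_23468a_al.
-/

set_option autoImplicit false

namespace Pool.Agent.MWLE.H76

open Pool.Agent.MWLE

theorem lef (h1 : AleStmt) (h2 : AioStmt) (h3 : AitStmt) (h4 : MWGN.PefStmt)
    (h5 : MWGN.FfrStmt) : LefStmt := by
  intro β hm hg he
  have hf : FBs β := fun r τ ht => h4 β hm hg r τ ht
  have a := h2 β hg (fun m τ ht => h1 β hm hg he hf m τ ht)
  have b : FF β := h5 β hg a (fun r τ ht => h4 β hm hg r τ ht)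
  exact ⟨a, h3 β hg b a⟩

end Pool.Agent.MWLE.H76
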